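import Pool.Agent.Y746.OM.Stm2
import Pool.Agent.H370R2.PC2
import Pool.Agent.H370R2.DirGood

/-! # Project OM, job OM2-WB: two crude bounds -/

set_option autoImplicit false

namespace Pool.Agent.Y949.OM

open Finset
open Pool.Agent.Y746.OM
open H370 (zset mult NN Zf zz)

lemma qS_pos {S : Finset ℕ} (h : ∀ p ∈ S, p.Prime) : 0 < qS S :=
  Finset.prod_pos fun p hp => (h p hp).pos

lemma FS_prime {P : Finset ℕ} {Q : ℝ} (hP : ∀ p ∈ P, p.Prime) {S : Finset ℕ}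
    (hS : S ∈ FS P Q) : ∀ p ∈ S, p.Prime := by
  unfold FS at hS
  rw [mem_filter, mem_powerset] at hS
  exact fun p hp => hP p (hS.1 hp)

lemma FS_card {P : Finset ℕ} {Q : ℝ} (hP : ∀ p ∈ P, p.Prime) (hQ : 1 ≤ Q) :
    ((FS P Q).card : ℝ) ≤ Q := by
  have h1 : (FS P Q).card ≤ (Icc 1 ⌊Q⌋₊).card := by
    apply card_le_card_of_injOn qS
    · intro S hS
      rw [mem_coe] at hS
      rw [mem_coe, mem_Icc]
      refine ⟨qS_pos (FS_prime hP hS), ?_⟩
      unfold FS at hS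
      rw [mem_filter] at hS
      exact Nat.le_floor hS.2
    · intro S hS S' hS' h
      rw [mem_coe] at hS hS'
      rw [← Nat.primeFactors_prod (FS_prime hP hS), ← Nat.primeFactors_prod (FS_prime hP hS')]
      exact congrArg Nat.primeFactors h
  rw [Nat.card_Icc, Nat.add_sub_cancel] at h1
  exact (Nat.cast_le.2 h1).trans (Nat.floor_le (by linarith))

theorem t_WB : S_WB := by
  intro P r Q y hP hr hQ hy t
  have h1 : ‖RS P Q y ((t : ℂ) * Complex.I)‖ ≤ ∑ S ∈ FS P Q, ∏ p ∈ S, r p := by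
    unfold RS
    refine (norm_sum_le _ _).trans (sum_le_sum fun S hS => ?_)
    have h2 := qS_pos (FS_prime hP hS)
    rw [norm_mul, Complex.norm_natCast_cpow_of_pos h2]
    have h3 : (-((t : ℂ) * Complex.I)).re = 0 := by simp
    rw [h3, Real.rpow_zero, mul_one]
    exact hy S hS
  have h2 : (∑ S ∈ FS P Q, ∏ p ∈ S, r p) ^ 2 ≤
      ((FS P Q).card : ℝ) * ∑ S ∈ FS P Q, (∏ p ∈ S, r p) ^ 2 := sq_sum_le_card_mul_sum_sq
  have h3 : ∑ S ∈ FS P Q, (∏ p ∈ S, r p) ^ 2 = N0 P r Q := by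
    unfold N0
    refine sum_congr rfl fun S _ => ?_
    rw [prod_pow]
  have h4 : 0 ≤ N0 P r Q := by
    rw [← h3]
    exact sum_nonneg fun _ _ => sq_nonneg _
  calc ‖RS P Q y ((t : ℂ) * Complex.I)‖ ^ 2 ≤ (∑ S ∈ FS P Q, ∏ p ∈ S, r p) ^ 2 :=
        pow_le_pow_left₀ (norm_nonneg _) h1 2
    _ ≤ ((FS P Q).card : ℝ) * N0 P r Q := by rw [← h3]; exact h2
    _ ≤ Q * N0 P r Q := mul_le_mul_of_nonneg_right (FS_card hP hQ) h4

theorem t_FB (hK : S_KER) : S_FB := by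
  obtain ⟨C0, hC0, hK⟩ := hK
  obtain ⟨C, hC, h⟩ := H370.Zg_le H370.good_zeta
  refine ⟨C, 10, hC, le_rfl, fun T hT U1 U2 hU1 hU12 hU2 B t hB1 hB2 => ?_⟩
  have h1 := h T (by linarith) U1 U2 hU1 hU2 t
  obtain ⟨-, hk, -⟩ := hK B hB1
  have hlog : 0 ≤ Real.log T := Real.log_nonneg (by linarith)
  have hZ0 : 0 ≤ H370.Zg riemannZeta U1 U2 t := by
    unfold H370.Zg
    exact sum_nonneg fun _ _ => mul_nonneg (Nat.cast_nonneg _) (Real.exp_pos _).le
  calc ∑ s ∈ Zf riemannZeta U1 U2, (mult riemannZeta s : ℝ) * KR B (s.im - t) ≤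
      ∑ s ∈ Zf riemannZeta U1 U2, (mult riemannZeta s : ℝ) *
        (B * Real.exp (-(s.im - t) ^ 2 / 2)) :=
        sum_le_sum fun s _ => mul_le_mul_of_nonneg_left (hk _).2 (Nat.cast_nonneg _)
    _ = B * H370.Zg riemannZeta U1 U2 t := by
        unfold H370.Zg
        rw [mul_sum]
        exact sum_congr rfl fun s _ => by ring
    _ ≤ Real.log T * (C * Real.log T) := mul_le_mul hB2 h1 hZ0 hlog
    _ = C * (Real.log T) ^ 2 := by ring

end Pool.Agent.Y949.OM
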